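import Mathlib

set_option autoImplicit false

namespace Pool.Agent.Results.MP_db21b4_co.BowtieDisproof

open Finset SimpleGraph

/-- The bowtie: two triangles `0,1,2` and `0,3,4` sharing exactly the vertex `0` (the center). -/
def bowtie : SimpleGraph (Fin 5) :=
  SimpleGraph.fromEdgeSet {s(0, 1), s(0, 2), s(0, 3), s(0, 4), s(1, 2), s(3, 4)}

/-- `o` is an orientation of `G`: `o u v` means that the edge `uv` is directed from `u` to `v`. -/
def IsOrientation {V : Type} (G : SimpleGraph V) (o : V → V → Prop) : Prop :=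
  (∀ u v, o u v → G.Adj u v) ∧ (∀ u v, G.Adj u v → (o u v ↔ ¬ o v u))

/-- The oriented graph `o` contains a (not necessarily induced) copy of the oriented graph `β`. -/
def ContainsCopy {V : Type} (o : V → V → Prop) (β : Fin 5 → Fin 5 → Prop) : Prop :=
  ∃ f : Fin 5 → V, Function.Injective f ∧ ∀ i j, β i j → o (f i) (f j)

/-- `D(G, β)`: the number of `β`-free orientations of `G`. -/
noncomputable def numFree {V : Type} (G : SimpleGraph V) (β : Fin 5 → Fin 5 → Prop) : ℕ :=
  Nat.card {o : V → V → Prop // IsOrientation G o ∧ ¬ ContainsCopy o β}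

/-- `D(n, β)`: the maximum of `D(G, β)` over all graphs `G` on `n` vertices. -/
noncomputable def maxFree (n : ℕ) (β : Fin 5 → Fin 5 → Prop) : ℕ :=
  sSup {d | ∃ (V : Type) (_ : Fintype V) (G : SimpleGraph V), Fintype.card V = n ∧ numFree G β = d}

/-! ### The Turan number of the bowtie -/

lemma bowtie_adj (i j : Fin 5) : bowtie.Adj i j ↔
    s(i, j) ∈ ({s(0, 1), s(0, 2), s(0, 3), s(0, 4), s(1, 2), s(3, 4)} : Finset (Sym2 (Fin 5)))
      ∧ i ≠ j := by
  unfold bowtie
  rw [SimpleGraph.fromEdgeSet_adj]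
  simp

lemma inj5 {V : Type} {c a b d e : V} (m1 : c ≠ a) (m2 : c ≠ b) (m3 : a ≠ b) (m4 : c ≠ d)
    (m5 : c ≠ e) (m6 : d ≠ e) (n1 : a ≠ d) (n2 : a ≠ e) (n3 : b ≠ d) (n4 : b ≠ e) :
    Function.Injective ![c, a, b, d, e] := by
  have m1' := m1.symm
  have m2' := m2.symm
  have m3' := m3.symm
  have m4' := m4.symm
  have m5' := m5.symm
  have m6' := m6.symm
  have n1' := n1.symm
  have n2' := n2.symm
  have n3' := n3.symm
  have n4' := n4.symm
  intro i j hij
  fin_cases i <;> fin_cases j <;>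
    first
    | rfl
    | (exfalso; simp at hij; contradiction)

lemma not_free {V : Type} {G : SimpleGraph V} (hf : bowtie.Free G) {c a b d e : V}
    (h1 : G.Adj c a) (h2 : G.Adj c b) (h3 : G.Adj a b) (h4 : G.Adj c d) (h5 : G.Adj c e)
    (h6 : G.Adj d e) (n1 : a ≠ d) (n2 : a ≠ e) (n3 : b ≠ d) (n4 : b ≠ e) : False := by
  apply hf
  refine ⟨⟨⟨![c, a, b, d, e], ?_⟩, ?_⟩⟩
  · intro i j hij
    rw [bowtie_adj] at hij
    obtain ⟨hij, -⟩ := hij
    fin_cases i <;> fin_cases j <;>
      first
      | (exfalso; revert hij; decide)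
      | (simp; first | assumption | (apply SimpleGraph.Adj.symm; assumption))
  · exact inj5 h1.ne h2.ne h3.ne h4.ne h5.ne h6.ne n1 n2 n3 n4

lemma base_comb : ∀ x y : Sym2 (Fin 5), ∃ c : Fin 5,
    ((s(c, c + 1) ≠ x ∧ s(c, c + 1) ≠ y) ∧ (s(c, c + 2) ≠ x ∧ s(c, c + 2) ≠ y) ∧
      (s(c, c + 3) ≠ x ∧ s(c, c + 3) ≠ y) ∧ (s(c, c + 4) ≠ x ∧ s(c, c + 4) ≠ y)) ∧
    (((s(c + 1, c + 2) ≠ x ∧ s(c + 1, c + 2) ≠ y) ∧ (s(c + 3, c + 4) ≠ x ∧ s(c + 3, c + 4) ≠ y)) ∨
     ((s(c + 1, c + 3) ≠ x ∧ s(c + 1, c + 3) ≠ y) ∧ (s(c + 2, c + 4) ≠ x ∧ s(c + 2, c + 4) ≠ y)) ∨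
     ((s(c + 1, c + 4) ≠ x ∧ s(c + 1, c + 4) ≠ y) ∧
      (s(c + 2, c + 3) ≠ x ∧ s(c + 2, c + 3) ≠ y))) := by
  decide +kernel

lemma ex_base : extremalNumber 5 bowtie ≤ 7 := by
  classical
  have h := (extremalNumber_le_iff (V := Fin 5) bowtie 7).mpr
  rw [Fintype.card_fin] at h
  apply h
  intro G _ hf
  by_contra hcon
  push Not at hcon
  obtain ⟨D, hDdef⟩ : ∃ D, D = (⊤ : SimpleGraph (Fin 5)).edgeFinset \ G.edgeFinset := ⟨_, rfl⟩
  have hD : #D ≤ 2 := by
    have h1 : G.edgeFinset ⊆ (⊤ : SimpleGraph (Fin 5)).edgeFinset :=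
      SimpleGraph.edgeFinset_mono le_top
    have h2 : #((⊤ : SimpleGraph (Fin 5)).edgeFinset) = 10 := by
      rw [SimpleGraph.card_edgeFinset_top_eq_card_choose_two, Fintype.card_fin]
      rfl
    rw [hDdef, Finset.card_sdiff_of_subset h1, h2]
    omega
  obtain ⟨x, y, hxy⟩ : ∃ x y, D ⊆ {x, y} := by
    obtain ⟨t, ht, htc⟩ : ∃ t : Finset (Sym2 (Fin 5)), D ⊆ t ∧ #t = 2 := by
      obtain ⟨t, ht, -, htc⟩ := Finset.exists_subsuperset_card_eq (Finset.subset_univ D)
        hD (by rw [Finset.card_univ]; decide)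
      exact ⟨t, ht, htc⟩
    obtain ⟨x, y, -, rfl⟩ := Finset.card_eq_two.mp htc
    exact ⟨x, y, ht⟩
  have hadj : ∀ i j : Fin 5, i ≠ j → s(i, j) ≠ x → s(i, j) ≠ y → G.Adj i j := by
    intro i j hij h1 h2
    by_contra hn
    have : s(i, j) ∈ D := by
      rw [hDdef, Finset.mem_sdiff, SimpleGraph.mem_edgeFinset, SimpleGraph.mem_edgeSet,
        SimpleGraph.mem_edgeFinset, SimpleGraph.mem_edgeSet]
      exact ⟨hij, hn⟩
    have := hxy this
    simp only [Finset.mem_insert, Finset.mem_singleton] at this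
    exact this.elim h1 h2
  obtain ⟨c, ⟨⟨p1, q1⟩, ⟨p2, q2⟩, ⟨p3, q3⟩, ⟨p4, q4⟩⟩, hp⟩ := base_comb x y
  have d1 : ∀ c : Fin 5, c ≠ c + 1 ∧ c ≠ c + 2 ∧ c ≠ c + 3 ∧ c ≠ c + 4 ∧ c + 1 ≠ c + 2 ∧
    c + 1 ≠ c + 3 ∧ c + 1 ≠ c + 4 ∧ c + 2 ≠ c + 3 ∧ c + 2 ≠ c + 4 ∧ c + 3 ≠ c + 4 := by decide
  obtain ⟨e1, e2, e3, e4, e5, e6, e7, e8, e9, e10⟩ := d1 c
  rcases hp with ⟨⟨p5, q5⟩, ⟨p6, q6⟩⟩ | ⟨⟨p5, q5⟩, ⟨p6, q6⟩⟩ | ⟨⟨p5, q5⟩, ⟨p6, q6⟩⟩
  · exact not_free hf (hadj _ _ e1 p1 q1) (hadj _ _ e2 p2 q2) (hadj _ _ e5 p5 q5)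
      (hadj _ _ e3 p3 q3) (hadj _ _ e4 p4 q4) (hadj _ _ e10 p6 q6) e6 e7 e8 e9
  · exact not_free hf (hadj _ _ e1 p1 q1) (hadj _ _ e3 p3 q3) (hadj _ _ e6 p5 q5)
      (hadj _ _ e2 p2 q2) (hadj _ _ e4 p4 q4) (hadj _ _ e9 p6 q6) e5 e7 e8.symm e10
  · exact not_free hf (hadj _ _ e1 p1 q1) (hadj _ _ e4 p4 q4) (hadj _ _ e7 p5 q5)
      (hadj _ _ e2 p2 q2) (hadj _ _ e3 p3 q3) (hadj _ _ e8 p6 q6) e5 e6 e9.symm e10.symm

/-- the neighbourhood of a vertex is a star -/
lemma star {V : Type} [Fintype V] [DecidableEq V] (G : SimpleGraph V) [DecidableRel G.Adj]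
    (hf : bowtie.Free G) (v : V) (hv : 4 ≤ G.degree v)
    (hc : ∀ w, G.Adj v w → ∃ t, G.Adj v t ∧ G.Adj w t) :
    ∃ s, G.Adj v s ∧ (∀ w, G.Adj v w → w ≠ s → G.Adj s w) ∧
      ∀ t t', G.Adj v t → G.Adj v t' → t ≠ s → t' ≠ s → ¬ G.Adj t t' := by
  have pick : ∀ S : Finset V, #S ≤ 3 → ∃ t, G.Adj v t ∧ t ∉ S := by
    intro S hS
    have : ((G.neighborFinset v) \ S).Nonempty := by
      rw [← Finset.card_pos]
      have := Finset.le_card_sdiff S (G.neighborFinset v)
      rw [SimpleGraph.card_neighborFinset_eq_degree] at this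
      omega
    obtain ⟨t, ht⟩ := this
    rw [Finset.mem_sdiff, SimpleGraph.mem_neighborFinset] at ht
    exact ⟨t, ht⟩
  have key : ∃ s, G.Adj v s ∧ (∀ w, G.Adj v w → w ≠ s → G.Adj s w) := by
    obtain ⟨w0, hw0, -⟩ := pick ∅ (by simp)
    obtain ⟨w1, hw1, h01⟩ := hc w0 hw0
    have hside : ∀ t, G.Adj v t → t ≠ w0 → t ≠ w1 → G.Adj t w0 ∨ G.Adj t w1 := by
      intro t ht ht0 ht1
      obtain ⟨t', ht', htt'⟩ := hc t ht
      by_cases h0 : t' = w0
      · left; rw [← h0]; exact htt'
      · by_cases h1 : t' = w1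
        · right; rw [← h1]; exact htt'
        · exact (not_free hf hw0 hw1 h01 ht ht' htt' ht0.symm (Ne.symm h0) ht1.symm
            (Ne.symm h1)).elim
    obtain ⟨t, ht, htn⟩ := pick {w0, w1} (Finset.card_le_two.trans (by norm_num))
    simp only [Finset.mem_insert, Finset.mem_singleton, not_or] at htn
    rcases hside t ht htn.1 htn.2 with h | h
    · refine ⟨w0, hw0, fun w hw hne => ?_⟩
      by_cases hw1' : w = w1
      · rw [hw1']; exact h01
      by_cases hwt : w = t
      · rw [hwt]; exact h.symm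
      rcases hside w hw hne hw1' with h2 | h2
      · exact h2.symm
      · exact (not_free hf ht hw0 h hw hw1 h2 (Ne.symm hwt) htn.2 hne.symm h01.ne).elim
    · refine ⟨w1, hw1, fun w hw hne => ?_⟩
      by_cases hw0' : w = w0
      · rw [hw0']; exact h01.symm
      by_cases hwt : w = t
      · rw [hwt]; exact h.symm
      rcases hside w hw hw0' hne with h2 | h2
      · exact (not_free hf ht hw1 h hw hw0 h2 (Ne.symm hwt) htn.1 hne.symm h01.symm.ne).elim
      · exact h2.symm
  obtain ⟨s, hs, hs2⟩ := key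
  refine ⟨s, hs, hs2, fun t t' ht ht' hts hts' hadj => ?_⟩
  obtain ⟨r, hr, hrn⟩ := pick {s, t, t'} Finset.card_le_three
  simp only [Finset.mem_insert, Finset.mem_singleton, not_or] at hrn
  exact not_free hf ht ht' hadj hs hr (hs2 r hr hrn.1) hts (Ne.symm hrn.2.1) hts' (Ne.symm hrn.2.2)

lemma min_deg {V : Type} [Fintype V] [DecidableEq V] (G : SimpleGraph V) [DecidableRel G.Adj]
    (hf : bowtie.Free G) (hn : 6 ≤ Fintype.card V)
    (hd : ∀ v, Fintype.card V / 2 + 1 ≤ G.degree v) : False := by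
  set n := Fintype.card V with hnn
  have hcommon : ∀ v w, G.degree v + G.degree w ≤
      #(G.neighborFinset v ∪ G.neighborFinset w) + #(G.neighborFinset v ∩ G.neighborFinset w) := by
    intro v w
    rw [Finset.card_union_add_card_inter, SimpleGraph.card_neighborFinset_eq_degree,
      SimpleGraph.card_neighborFinset_eq_degree]
  have hun : ∀ S : Finset V, #S ≤ n := fun S => Finset.card_le_univ S
  have hc : ∀ v w, G.Adj v w → ∃ t, G.Adj v t ∧ G.Adj w t := by
    intro v w _
    have h1 := hcommon v w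
    have h2 := hun (G.neighborFinset v ∪ G.neighborFinset w)
    have h3 := hd v
    have h4 := hd w
    have h5 : 0 < #(G.neighborFinset v ∩ G.neighborFinset w) := by omega
    obtain ⟨t, ht⟩ := Finset.card_pos.mp h5
    rw [Finset.mem_inter, SimpleGraph.mem_neighborFinset, SimpleGraph.mem_neighborFinset] at ht
    exact ⟨t, ht⟩
  have h4 : ∀ v, 4 ≤ G.degree v := by
    intro v
    have := hd v
    omega
  have hne : Nonempty V := by
    rw [← Fintype.card_pos_iff]; omega
  obtain ⟨v⟩ := hne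
  obtain ⟨s, hvs, hs2, hs3⟩ := star G hf v (h4 v) (hc v)
  obtain ⟨s', hss', hs2', hs3'⟩ := star G hf s (h4 s) (hc s)
  have hs'v : s' = v := by
    by_contra hcon
    -- a neighbour of v different from s, s'
    have : ((G.neighborFinset v) \ {s, s'}).Nonempty := by
      rw [← Finset.card_pos]
      have h := Finset.le_card_sdiff {s, s'} (G.neighborFinset v)
      rw [SimpleGraph.card_neighborFinset_eq_degree] at h
      have h2 : #({s, s'} : Finset V) ≤ 2 := Finset.card_le_two
      have := h4 v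
      omega
    obtain ⟨t, ht⟩ := this
    rw [Finset.mem_sdiff, SimpleGraph.mem_neighborFinset] at ht
    simp only [Finset.mem_insert, Finset.mem_singleton, not_or] at ht
    exact hs3' v t hvs.symm (hs2 t ht.1 ht.2.1) (Ne.symm hcon) ht.2.2 ht.1
  subst hs'v
  -- a leaf
  have hleaf : ∀ w, G.Adj s' w → w ≠ s → G.neighborFinset w ∩ G.neighborFinset s' ⊆ {s} := by
    intro w hw hws t ht
    rw [Finset.mem_inter, SimpleGraph.mem_neighborFinset, SimpleGraph.mem_neighborFinset] at ht
    rw [Finset.mem_singleton]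
    by_contra hts
    exact hs3 w t hw ht.2 hws hts ht.1
  have hall : ∀ w, G.Adj s' w → w ≠ s →
      (∀ o, G.Adj w o ∨ G.Adj s' o) ∧ G.degree s' + G.degree w ≤ n + 1 := by
    intro w hw hws
    have h1 := hcommon w s'
    have h2 := Finset.card_le_card (hleaf w hw hws)
    rw [Finset.card_singleton] at h2
    have h3 := hun (G.neighborFinset w ∪ G.neighborFinset s')
    have h5 := hd w
    have h6 := hd s'
    have h7 : n ≤ #(G.neighborFinset w ∪ G.neighborFinset s') := by omega
    have h8 : G.neighborFinset w ∪ G.neighborFinset s' = Finset.univ := by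
      apply Finset.eq_univ_of_card
      omega
    refine ⟨fun o => ?_, by omega⟩
    have : o ∈ G.neighborFinset w ∪ G.neighborFinset s' := by rw [h8]; exact Finset.mem_univ _
    rw [Finset.mem_union, SimpleGraph.mem_neighborFinset, SimpleGraph.mem_neighborFinset] at this
    exact this
  obtain ⟨w, hw, hws⟩ : ∃ w, G.Adj s' w ∧ w ≠ s := by
    have : ((G.neighborFinset s') \ {s}).Nonempty := by
      rw [← Finset.card_pos]
      have h := Finset.le_card_sdiff {s} (G.neighborFinset s')
      rw [SimpleGraph.card_neighborFinset_eq_degree, Finset.card_singleton] at h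
      have := h4 s'
      omega
    obtain ⟨t, ht⟩ := this
    rw [Finset.mem_sdiff, SimpleGraph.mem_neighborFinset] at ht
    simp only [Finset.mem_singleton] at ht
    exact ⟨t, ht⟩
  have hdv : G.degree s' + 1 < n := by
    have := (hall w hw hws).2
    have := hd w
    omega
  obtain ⟨o, ho, hov⟩ : ∃ o, ¬ G.Adj s' o ∧ o ≠ s' := by
    have : (Finset.univ \ (insert s' (G.neighborFinset s'))).Nonempty := by
      rw [← Finset.card_pos]
      have h := Finset.le_card_sdiff (insert s' (G.neighborFinset s')) Finset.univ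
      have h2 := Finset.card_insert_le s' (G.neighborFinset s')
      rw [SimpleGraph.card_neighborFinset_eq_degree] at h2
      rw [Finset.card_univ] at h
      omega
    obtain ⟨t, ht⟩ := this
    rw [Finset.mem_sdiff, Finset.mem_insert, SimpleGraph.mem_neighborFinset, not_or] at ht
    exact ⟨t, ht.2.2, ht.2.1⟩
  have hos : ¬ G.Adj o s := by
    intro h
    exact ho (hs2' o h.symm hov)
  obtain ⟨o', hoo', ho'L⟩ : ∃ o', G.Adj o o' ∧ o' ∉ (G.neighborFinset s') := by
    by_contra hcon
    push Not at hcon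
    have hsub : G.neighborFinset o ⊆ (G.neighborFinset s').erase s := by
      intro t ht
      rw [SimpleGraph.mem_neighborFinset] at ht
      rw [Finset.mem_erase]
      refine ⟨?_, hcon t ht⟩
      rintro rfl
      exact hos ht
    have h1 := Finset.card_le_card hsub
    rw [Finset.card_erase_of_mem (by rwa [SimpleGraph.mem_neighborFinset]),
      SimpleGraph.card_neighborFinset_eq_degree, SimpleGraph.card_neighborFinset_eq_degree] at h1
    have h2 := hd o
    have h3 := (hall w hw hws).2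
    have h5 := hd w
    omega
  rw [SimpleGraph.mem_neighborFinset] at ho'L
  have hwo : G.Adj w o := ((hall w hw hws).1 o).resolve_right ho
  have hwo' : G.Adj w o' := ((hall w hw hws).1 o').resolve_right ho'L
  have hsw : G.Adj s w := hs2 w hw hws
  refine not_free hf hw.symm hsw.symm hvs hwo hwo' hoo' hov.symm ?_ ?_ ?_
  · rintro rfl
    exact ho hoo'.symm
  · rintro rfl
    exact ho hvs
  · rintro rfl
    exact ho'L hvs

lemma ex_bound (n : ℕ) (hn : 5 ≤ n) : extremalNumber n bowtie ≤ n ^ 2 / 4 + 1 := by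
  classical
  induction n, hn using Nat.le_induction with
  | base => exact ex_base
  | succ n hn ih =>
    have h := (extremalNumber_le_iff (V := Fin (n + 1)) bowtie ((n + 1) ^ 2 / 4 + 1)).mpr
    rw [Fintype.card_fin] at h
    apply h
    intro G _ hf
    by_contra hcon
    push Not at hcon
    by_cases hd : ∀ v, Fintype.card (Fin (n + 1)) / 2 + 1 ≤ G.degree v
    · exact min_deg G hf (by rw [Fintype.card_fin]; omega) hd
    · push Not at hd
      obtain ⟨v, hv⟩ := hd
      rw [Fintype.card_fin] at hv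
      have h1 := card_edgeFinset_deleteIncidenceSet_le_extremalNumber hf v
      rw [Fintype.card_fin, Nat.add_sub_cancel, card_edgeFinset_deleteIncidenceSet] at h1
      have h2 : n ^ 2 / 4 + (n + 1) / 2 ≤ (n + 1) ^ 2 / 4 := by
        rcases Nat.even_or_odd' n with ⟨k, rfl | rfl⟩
        · have a1 : (2 * k) ^ 2 / 4 = k ^ 2 := by
            rw [mul_pow]; norm_num
          have a2 : (2 * k + 1) / 2 = k := by omega
          have a3 : (2 * k + 1) ^ 2 = 4 * (k ^ 2 + k) + 1 := by ring
          rw [a1, a2, a3]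
          omega
        · have a1 : (2 * k + 1) ^ 2 = 4 * (k ^ 2 + k) + 1 := by ring
          have a2 : (2 * k + 1 + 1) / 2 = k + 1 := by omega
          have a3 : (2 * k + 1 + 1) ^ 2 = 4 * (k ^ 2 + k + (k + 1)) := by ring
          rw [a1, a2, a3]
          omega
      omega

/-! ### Many free orientations of `K_1 ∨ K_{b,b}` -/

/-- vertex set of `K_1 ∨ K_{b,b}` -/
abbrev W (b : ℕ) := Option (Fin b ⊕ Fin b)

/-- adjacency of `K_1 ∨ K_{b,b}` -/
def WAdj (b : ℕ) : W b → W b → Prop
  | none, none => False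
  | none, some _ => True
  | some _, none => True
  | some (Sum.inl _), some (Sum.inr _) => True
  | some (Sum.inr _), some (Sum.inl _) => True
  | some (Sum.inl _), some (Sum.inl _) => False
  | some (Sum.inr _), some (Sum.inr _) => False

/-- `K_1 ∨ K_{b,b}` -/
def WG (b : ℕ) : SimpleGraph (W b) where
  Adj := WAdj b
  symm := ⟨by rintro (_ | (x | x)) (_ | (y | y)) h <;> first | exact h | trivial⟩
  loopless := ⟨by rintro (_ | (x | x)) h <;> exact h⟩

/-- the orientation given by `g` on `K_{b,b}` and by the in-neighbours `I` of the apex -/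
def ori (b : ℕ) (g : Fin b → Fin b → Bool) (I : Fin b ⊕ Fin b → Bool) : W b → W b → Prop
  | none, none => False
  | none, some z => I z = false
  | some z, none => I z = true
  | some (Sum.inl x), some (Sum.inr y) => g x y = true
  | some (Sum.inr y), some (Sum.inl x) => g x y = false
  | some (Sum.inl _), some (Sum.inl _) => False
  | some (Sum.inr _), some (Sum.inr _) => False

lemma ori_isOrientation (b : ℕ) (g : Fin b → Fin b → Bool) (I : Fin b ⊕ Fin b → Bool) :
    IsOrientation (WG b) (ori b g I) := by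
  constructor
  · rintro (_ | (x | x)) (_ | (y | y)) h <;> first | exact h | trivial
  · rintro (_ | (x | x)) (_ | (y | y)) h
    · exact (h : False).elim
    · show I _ = false ↔ ¬ I _ = true
      simp
    · show I _ = false ↔ ¬ I _ = true
      simp
    · show I _ = true ↔ ¬ I _ = false
      simp
    · exact (h : False).elim
    · show g _ _ = true ↔ ¬ g _ _ = false
      simp
    · show I _ = true ↔ ¬ I _ = false
      simp
    · show g _ _ = false ↔ ¬ g _ _ = true
      simp
    · exact (h : False).elim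

lemma ori_inj (b : ℕ) : Function.Injective
    (fun p : (Fin b → Fin b → Bool) × (Fin b ⊕ Fin b → Bool) => ori b p.1 p.2) := by
  rintro ⟨g, I⟩ ⟨g', I'⟩ h
  have h' : ∀ u v, ori b g I u v = ori b g' I' u v := fun u v => congrFun (congrFun h u) v
  congr 1
  · funext x y
    have := h' (some (Sum.inl x)) (some (Sum.inr y))
    change (g x y = true) = (g' x y = true) at this
    rw [Bool.eq_iff_iff, this]
  · funext z
    have := h' (some z) none
    change (I z = true) = (I' z = true) at this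
    rw [Bool.eq_iff_iff, this]

/-- number of `true`s among four values of `I` -/
def cnt {b : ℕ} (I : Fin b ⊕ Fin b → Bool) (z1 z2 z3 z4 : Fin b ⊕ Fin b) : ℕ :=
  (I z1).toNat + (I z2).toNat + (I z3).toNat + (I z4).toNat

/-- No two disjoint edges of `K_{b,b}` carry exactly three vertices of `I`. -/
def Good {b : ℕ} (I : Fin b ⊕ Fin b → Bool) : Prop :=
  ∀ x x' y y' : Fin b, x ≠ x' → y ≠ y' →
    cnt I (Sum.inl x) (Sum.inr y) (Sum.inl x') (Sum.inr y') ≠ 3

/-- many good sets -/
def psi (b : ℕ) (hb : 2 ≤ b) : Option (Bool × (Fin b → Bool)) → (Fin b ⊕ Fin b → Bool)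
  | none => Sum.elim (fun x => decide (x = ⟨0, by omega⟩)) (fun y => decide (y = ⟨0, by omega⟩))
  | some (false, h) => Sum.elim h (fun _ => false)
  | some (true, h) => if h = (fun _ => false) then (fun _ => true)
      else Sum.elim (fun _ => false) h

lemma psi_good (b : ℕ) (hb : 2 ≤ b) (t : Option (Bool × (Fin b → Bool))) : Good (psi b hb t) := by
  intro x x' y y' hx hy
  unfold cnt
  rcases t with _ | ⟨_ | _, h⟩
  · simp only [psi, Sum.elim_inl, Sum.elim_inr]
    by_cases h1 : x = ⟨0, by omega⟩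
    · have h2 : x' ≠ ⟨0, by omega⟩ := fun h => hx (h1.trans h.symm)
      by_cases h3 : y = ⟨0, by omega⟩
      · have h4 : y' ≠ ⟨0, by omega⟩ := fun h => hy (h3.trans h.symm)
        simp [h1, h2, h3, h4]
      · simp [h1, h2, h3]
        have := Bool.toNat_le (decide (y' = ⟨0, by omega⟩))
        omega
    · have := Bool.toNat_le (decide (x' = ⟨0, by omega⟩))
      by_cases h3 : y = ⟨0, by omega⟩
      · have h4 : y' ≠ ⟨0, by omega⟩ := fun h => hy (h3.trans h.symm)
        simp [h1, h3, h4]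
        omega
      · have := Bool.toNat_le (decide (y' = ⟨0, by omega⟩))
        simp [h1, h3]
        omega
  · simp only [psi, Sum.elim_inl, Sum.elim_inr, Bool.toNat_false]
    have h1 := Bool.toNat_le (h x)
    have h2 := Bool.toNat_le (h x')
    omega
  · simp only [psi]
    split_ifs with h0
    · simp
    · simp only [Sum.elim_inl, Sum.elim_inr, Bool.toNat_false]
      have h1 := Bool.toNat_le (h y)
      have h2 := Bool.toNat_le (h y')
      omega

lemma psi_inj (b : ℕ) (hb : 2 ≤ b) : Function.Injective (psi b hb) := by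
  have h0 : (⟨0, by omega⟩ : Fin b) ≠ ⟨1, by omega⟩ := by
    intro h
    have := congrArg Fin.val h
    simp at this
  intro s t hst
  have hv : ∀ z, psi b hb s z = psi b hb t z := fun z => congrFun hst z
  rcases s with _ | ⟨_ | _, h⟩ <;> rcases t with _ | ⟨_ | _, h'⟩
  · rfl
  · have := hv (Sum.inr ⟨0, by omega⟩)
    simp [psi] at this
  · exfalso
    by_cases hh : h' = fun _ => false
    · have := hv (Sum.inl ⟨1, by omega⟩)
      simp only [psi, hh, if_true, Sum.elim_inl] at this
      simp at this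
    · have := hv (Sum.inl ⟨0, by omega⟩)
      simp only [psi, hh, if_false, Sum.elim_inl] at this
      simp at this
  · have := hv (Sum.inr ⟨0, by omega⟩)
    simp [psi] at this
  · congr 2
    funext x
    simpa [psi] using hv (Sum.inl x)
  · exfalso
    by_cases hh : h' = fun _ => false
    · have := hv (Sum.inr ⟨1, by omega⟩)
      simp only [psi, hh, if_true, Sum.elim_inr] at this
      simp at this
    · apply hh
      funext y
      have := hv (Sum.inr y)
      simp only [psi, hh, if_false, Sum.elim_inr] at this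
      exact this.symm
  · exfalso
    by_cases hh : h = fun _ => false
    · have := hv (Sum.inl ⟨1, by omega⟩)
      simp only [psi, hh, if_true, Sum.elim_inl] at this
      simp at this
    · have := hv (Sum.inl ⟨0, by omega⟩)
      simp only [psi, hh, if_false, Sum.elim_inl] at this
      simp at this
  · exfalso
    by_cases hh : h = fun _ => false
    · have := hv (Sum.inr ⟨1, by omega⟩)
      simp only [psi, hh, if_true, Sum.elim_inr] at this
      simp at this
    · apply hh
      funext y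
      have := hv (Sum.inr y)
      simp only [psi, hh, if_false, Sum.elim_inr] at this
      exact this
  · congr 2
    by_cases hh : h = fun _ => false <;> by_cases hh' : h' = fun _ => false
    · rw [hh, hh']
    · exfalso
      have := hv (Sum.inl ⟨0, by omega⟩)
      simp only [psi, hh, hh', if_true, if_false, Sum.elim_inl] at this
      simp at this
    · exfalso
      have := hv (Sum.inl ⟨0, by omega⟩)
      simp only [psi, hh, hh', if_true, if_false, Sum.elim_inl] at this
      simp at this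
    · funext y
      have := hv (Sum.inr y)
      simp only [psi, hh, hh', if_false, Sum.elim_inr] at this
      exact this

lemma triangle_none {b : ℕ} {u v w : W b} (h1 : (WG b).Adj u v) (h2 : (WG b).Adj u w)
    (h3 : (WG b).Adj v w) : u = none ∨ v = none ∨ w = none := by
  rcases u with _ | (u | u) <;> rcases v with _ | (v | v) <;> rcases w with _ | (w | w) <;>
    first
    | exact Or.inl rfl
    | exact Or.inr (Or.inl rfl)
    | exact Or.inr (Or.inr rfl)
    | exact (h1 : False).elim
    | exact (h2 : False).elim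
    | exact (h3 : False).elim

lemma ncard_eq_sum (P : Fin 5 → Prop) [DecidablePred P] (h0 : ¬ P 0) :
    {i | P i}.ncard = (decide (P 1)).toNat + (decide (P 2)).toNat + (decide (P 3)).toNat
      + (decide (P 4)).toNat := by
  have h : {i | P i} = ((Finset.univ.filter P : Finset (Fin 5)) : Set (Fin 5)) := by
    ext; simp
  rw [h, Set.ncard_coe_finset, Finset.card_filter, Fin.sum_univ_five]
  simp only [h0, if_false, zero_add]
  congr 1
  · congr 1
    · congr 1
      · by_cases h : P 1 <;> simp [h]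
      · by_cases h : P 2 <;> simp [h]
    · by_cases h : P 3 <;> simp [h]
  · by_cases h : P 4 <;> simp [h]

/-- the edges of the bowtie -/
lemma bt_edges : bowtie.Adj 0 1 ∧ bowtie.Adj 0 2 ∧ bowtie.Adj 0 3 ∧ bowtie.Adj 0 4 ∧
    bowtie.Adj 1 2 ∧ bowtie.Adj 3 4 := by
  simp only [bowtie_adj]
  decide

lemma four {b : ℕ} (g : Fin b → Fin b → Bool) (I : Fin b ⊕ Fin b → Bool)
    (β : Fin 5 → Fin 5 → Prop) (hβ : IsOrientation bowtie β)
    (hcon : ContainsCopy (ori b g I) β) : ∃ x x' y y' : Fin b, x ≠ x' ∧ y ≠ y' ∧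
      {i | β i 0}.ncard = cnt I (Sum.inl x) (Sum.inr y) (Sum.inl x') (Sum.inr y') ∧
      {i | β 0 i}.ncard = cnt (fun z => !(I z)) (Sum.inl x) (Sum.inr y) (Sum.inl x')
        (Sum.inr y') := by
  classical
  obtain ⟨f, hf, hβf⟩ := hcon
  have hadj : ∀ i j, bowtie.Adj i j → (WG b).Adj (f i) (f j) := by
    intro i j hij
    by_cases h : β i j
    · exact (ori_isOrientation b g I).1 _ _ (hβf i j h)
    · have : β j i := by
        by_contra h2
        exact h ((hβ.2 i j hij).mpr h2)
      exact ((ori_isOrientation b g I).1 _ _ (hβf j i this)).symm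
  obtain ⟨b01, b02, b03, b04, b12, b34⟩ := bt_edges
  have t1 := triangle_none (hadj _ _ b01) (hadj _ _ b02) (hadj _ _ b12)
  have t2 := triangle_none (hadj _ _ b03) (hadj _ _ b04) (hadj _ _ b34)
  have f0 : f 0 = none := by
    rcases t1 with h | h | h
    · exact h
    · rcases t2 with h' | h' | h'
      · exact h'
      · exact absurd (hf (h.trans h'.symm)) (by decide)
      · exact absurd (hf (h.trans h'.symm)) (by decide)
    · rcases t2 with h' | h' | h'
      · exact h'
      · exact absurd (hf (h.trans h'.symm)) (by decide)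
      · exact absurd (hf (h.trans h'.symm)) (by decide)
  have hsome : ∀ i, i ≠ 0 → ∃ z, f i = some z := by
    intro i hi
    rcases h : f i with _ | z
    · exact absurd (hf (h.trans f0.symm)) hi
    · exact ⟨z, rfl⟩
  have hin : ∀ i z, bowtie.Adj 0 i → f i = some z → decide (β i 0) = I z := by
    intro i z hi hz
    by_cases h : β i 0
    · have := hβf i 0 h
      rw [hz, f0] at this
      change I z = true at this
      rw [this]; simp [h]
    · have h2 : β 0 i := (hβ.2 0 i hi).mpr h
      have := hβf 0 i h2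
      rw [hz, f0] at this
      change I z = false at this
      rw [this]; simp [h]
  have hout : ∀ i z, bowtie.Adj 0 i → f i = some z → decide (β 0 i) = !(I z) := by
    intro i z hi hz
    rw [← hin i z hi hz]
    by_cases h : β i 0
    · have : ¬ β 0 i := (hβ.2 i 0 hi.symm).mp h
      simp [h, this]
    · have h2 : β 0 i := (hβ.2 0 i hi).mpr h
      simp [h, h2]
  have n1 : ¬ β 0 0 := fun h => (bowtie.loopless.irrefl 0) (hβ.1 _ _ h)
  obtain ⟨z1, e1⟩ := hsome 1 (by decide)
  obtain ⟨z2, e2⟩ := hsome 2 (by decide)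
  obtain ⟨z3, e3⟩ := hsome 3 (by decide)
  obtain ⟨z4, e4⟩ := hsome 4 (by decide)
  have c1 : {i | β i 0}.ncard = cnt I z1 z2 z3 z4 := by
    rw [ncard_eq_sum (fun i => β i 0) n1, hin 1 z1 b01 e1, hin 2 z2 b02 e2, hin 3 z3 b03 e3,
      hin 4 z4 b04 e4]
    rfl
  have c2 : {i | β 0 i}.ncard = cnt (fun z => !(I z)) z1 z2 z3 z4 := by
    rw [ncard_eq_sum (fun i => β 0 i) n1, hout 1 z1 b01 e1, hout 2 z2 b02 e2, hout 3 z3 b03 e3,
      hout 4 z4 b04 e4]
    rfl
  have a12 := hadj _ _ b12
  have a34 := hadj _ _ b34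
  have ne : ∀ i j zi zj, f i = some zi → f j = some zj → i ≠ j → zi ≠ zj := by
    rintro i j zi zj hi hj hij rfl
    exact hij (hf (hi.trans hj.symm))
  have s1 : ∀ J : Fin b ⊕ Fin b → Bool, ∀ p q r s, cnt J p q r s = cnt J q p r s := by
    intro J p q r s; unfold cnt; omega
  have s2 : ∀ J : Fin b ⊕ Fin b → Bool, ∀ p q r s, cnt J p q r s = cnt J p q s r := by
    intro J p q r s; unfold cnt; omega
  rw [e1, e2] at a12
  rw [e3, e4] at a34
  rcases z1 with x1 | x1 <;> rcases z2 with x2 | x2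
  · exact (a12 : False).elim
  · rcases z3 with x3 | x3 <;> rcases z4 with x4 | x4
    · exact (a34 : False).elim
    · exact ⟨x1, x3, x2, x4, fun h => ne 1 3 _ _ e1 e3 (by decide) (by rw [h]),
        fun h => ne 2 4 _ _ e2 e4 (by decide) (by rw [h]), c1, c2⟩
    · exact ⟨x1, x4, x2, x3, fun h => ne 1 4 _ _ e1 e4 (by decide) (by rw [h]),
        fun h => ne 2 3 _ _ e2 e3 (by decide) (by rw [h]), by rw [c1, s2], by rw [c2, s2]⟩
    · exact (a34 : False).elim
  · rcases z3 with x3 | x3 <;> rcases z4 with x4 | x4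
    · exact (a34 : False).elim
    · exact ⟨x2, x3, x1, x4, fun h => ne 2 3 _ _ e2 e3 (by decide) (by rw [h]),
        fun h => ne 1 4 _ _ e1 e4 (by decide) (by rw [h]), by rw [c1, s1], by rw [c2, s1]⟩
    · exact ⟨x2, x4, x1, x3, fun h => ne 2 4 _ _ e2 e4 (by decide) (by rw [h]),
        fun h => ne 1 3 _ _ e1 e3 (by decide) (by rw [h]), by rw [c1, s1, s2],
        by rw [c2, s1, s2]⟩
    · exact (a34 : False).elim
  · exact (a12 : False).elim

lemma many {V : Type} [Fintype V] (G : SimpleGraph V) (β : Fin 5 → Fin 5 → Prop) {S : Type}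
    [Fintype S] (Φ : S → V → V → Prop) (hinj : Function.Injective Φ)
    (h : ∀ s, IsOrientation G (Φ s) ∧ ¬ ContainsCopy (Φ s) β) :
    Fintype.card S ≤ numFree G β := by
  classical
  unfold numFree
  rw [← Nat.card_eq_fintype_card]
  exact Nat.card_le_card_of_injective
    (fun s => (⟨Φ s, h s⟩ : {o : V → V → Prop // IsOrientation G o ∧ ¬ ContainsCopy o β}))
    (fun s t hst => hinj (Subtype.ext_iff.mp hst))

lemma numFree_lower (b : ℕ) (hb : 2 ≤ b) (β : Fin 5 → Fin 5 → Prop)
    (hβ : IsOrientation bowtie β) (h3 : {i | β i 0}.ncard = 3 ∨ {i | β 0 i}.ncard = 3) :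
    2 ^ (b * b + b + 1) < numFree (WG b) β := by
  classical
  have hcard : Fintype.card ((Fin b → Fin b → Bool) × Option (Bool × (Fin b → Bool))) =
      2 ^ (b * b) * (2 * 2 ^ b + 1) := by
    simp [pow_mul]
  have hlt : 2 ^ (b * b + b + 1) <
      Fintype.card ((Fin b → Fin b → Bool) × Option (Bool × (Fin b → Bool))) := by
    rw [hcard]
    have h1 : 2 ^ (b * b + b + 1) = 2 ^ (b * b) * (2 * 2 ^ b) := by
      rw [pow_add, pow_add]; ring
    rw [h1]
    have : 0 < 2 ^ (b * b) := by positivity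
    nlinarith
  refine lt_of_lt_of_le hlt ?_
  rcases h3 with h3 | h3
  · refine many (WG b) β (fun p => ori b p.1 (psi b hb p.2)) ?_ ?_
    · rintro ⟨g, t⟩ ⟨g', t'⟩ h
      have := ori_inj b (a₁ := (g, psi b hb t)) (a₂ := (g', psi b hb t')) h
      rw [Prod.mk.injEq] at this
      rw [this.1, psi_inj b hb this.2]
    · rintro ⟨g, t⟩
      refine ⟨ori_isOrientation _ _ _, fun hcon => ?_⟩
      obtain ⟨x, x', y, y', hx, hy, e1, -⟩ := four g _ β hβ hcon
      exact psi_good b hb t x x' y y' hx hy (by rw [← e1, h3])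
  · refine many (WG b) β (fun p => ori b p.1 (fun z => !(psi b hb p.2 z))) ?_ ?_
    · rintro ⟨g, t⟩ ⟨g', t'⟩ h
      have := ori_inj b (a₁ := (g, fun z => !(psi b hb t z)))
        (a₂ := (g', fun z => !(psi b hb t' z))) h
      rw [Prod.mk.injEq] at this
      have h2 : psi b hb t = psi b hb t' := by
        funext z
        have := congrFun this.2 z
        simpa using this
      rw [this.1, psi_inj b hb h2]
    · rintro ⟨g, t⟩
      refine ⟨ori_isOrientation _ _ _, fun hcon => ?_⟩
      obtain ⟨x, x', y, y', hx, hy, -, e2⟩ := four g _ β hβ hcon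
      simp only [Bool.not_not] at e2
      exact psi_good b hb t x x' y y' hx hy (by rw [← e2, h3])

lemma numFree_le {V : Type} [Fintype V] (G : SimpleGraph V) (β : Fin 5 → Fin 5 → Prop) :
    numFree G β ≤ 2 ^ (Fintype.card V * Fintype.card V) := by
  classical
  unfold numFree
  have h1 : Nat.card {o : V → V → Prop // IsOrientation G o ∧ ¬ ContainsCopy o β} ≤
      Nat.card (V → V → Prop) :=
    Nat.card_le_card_of_injective _ Subtype.val_injective
  refine h1.trans (le_of_eq ?_)
  rw [Nat.card_eq_fintype_card]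
  simp [pow_mul]

/-- For every odd `n = 2b+1 ≥ 5` and every orientation `β` of the bowtie with exactly three of the
four edges at the center directed toward it, or exactly three directed away from it,
`D(n, β) > 2 ^ ex(n, bowtie)`. -/
theorem result (b : ℕ) (hb : 2 ≤ b) (β : Fin 5 → Fin 5 → Prop) (hβ : IsOrientation bowtie β)
    (h3 : {i | β i 0}.ncard = 3 ∨ {i | β 0 i}.ncard = 3) :
    2 ^ (extremalNumber (2 * b + 1) bowtie) < maxFree (2 * b + 1) β := by
  classical
  have h1 := ex_bound (2 * b + 1) (by omega)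
  have h2 : (2 * b + 1) ^ 2 / 4 + 1 = b * b + b + 1 := by
    have : (2 * b + 1) ^ 2 = 4 * (b * b + b) + 1 := by ring
    rw [this]
    omega
  rw [h2] at h1
  calc 2 ^ (extremalNumber (2 * b + 1) bowtie) ≤ 2 ^ (b * b + b + 1) :=
        Nat.pow_le_pow_right (by norm_num) h1
    _ < numFree (WG b) β := numFree_lower b hb β hβ h3
    _ ≤ maxFree (2 * b + 1) β := by
        unfold maxFree
        apply le_csSup
        · refine ⟨2 ^ ((2 * b + 1) * (2 * b + 1)), ?_⟩
          rintro d ⟨V, hV, G, hc, rfl⟩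
          have := numFree_le G β
          rwa [hc] at this
        · exact ⟨W b, inferInstance, WG b, by simp; ring, rfl⟩

end Pool.Agent.Results.MP_db21b4_co.BowtieDisproof
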